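import Pool.Agent.Q91.VR.Mixed
import Pool.Agent.H219.WhH.Nil

/-!
# The Dennis trace `K₁(K[G]) → HH₁(K[G])` over fields of characteristic zero, for groups of
# piecewise projective homeomorphisms

Let `K` be a field of characteristic zero and `G` a torsion-free group. If the assembly map is
surjective, then `K₁(K[G])` is generated by `K₁(K)` and `G`, so that the Dennis trace of every
invertible matrix over `K[G]` is that of an element of `G`.  We prove this, for cocycles with values
in finitely generated subrings of `K`, for all torsion-free groups which have finitely many actions
by increasing piecewise projective homeomorphisms of the line and a linear representation in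
characteristic zero which together separate the elements; for example for Thompson's group `F`, the
groups of piecewise linear homeomorphisms, Monod's non-amenable groups without free subgroups and
the groups of Lodha and Moore.
-/

set_option autoImplicit false

namespace Pool.Agent.Results.MP_f7db47_al.DennisTraceCharZero

open H219.WhC H219.WhH Pool.Agent.Q91.VR

universe u v

/-- Let `K` be a field of characteristic `0` and `G` a torsion-free group with the property
`ProjectiveLinear G`. Then for every invertible matrix `A` over `K[G]` there is `γ ∈ G` such that
every Hochschild `1`-cocycle `f` on `K[G]` whose values on pairs of group elements lie in a finitely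
generated subring of `K` takes the same value on the Dennis trace of `A` and on that of `γ`. -/
theorem result (K : Type u) [Field K] [CharZero K] (G : Type v) [Group G]
    (htf : ∀ g : G, ∀ m : ℕ, 0 < m → g ^ m = 1 → g = 1) (hG : ProjectiveLinear G)
    (n : ℕ) (A : (Matrix (Fin n) (Fin n) (MonoidAlgebra K G))ˣ) :
    ∃ γ : G, ∀ (s : Finset K) (f : G → G → K), (∀ x y, f x y ∈ Algebra.adjoin ℤ (s : Set K)) →
      (∀ x y z : G, f (x * y) z - f x (y * z) + f (z * x) y = 0) →
      (∑ i, ∑ j, ((A⁻¹).val i j).coeff.sum fun g b =>
          (A.val j i).coeff.sum fun h a => b * a * f g h) = f γ⁻¹ γ := by
  obtain ⟨γ, hγ⟩ := field_mainH A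
  exact ⟨γ, fun s f hs hf => hγ (hG.good htf _ (grpF_fg A)) s f hs hf⟩

end Pool.Agent.Results.MP_f7db47_al.DennisTraceCharZero
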