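import Pool.Agent.Q91.PP.SubR
import Pool.Agent.H219.WhH.CharP

/-!
# The Dennis trace `K₁(K[G]) → HH₁(K[G])` over fields of odd characteristic, for groups of piecewise
# projective homeomorphisms

Let `K` be a field of odd characteristic `p` and `G` a torsion-free group. If the assembly map is
surjective, then `K₁(K[G])` is generated by `K₁(K)` and `G`, and the Dennis trace of every invertible
matrix over `K[G]` is that of an element of `G`.  We prove this for all groups which are residually
groups of increasing piecewise projective homeomorphisms of the line over subrings of `ℝ` in which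
`p` is not invertible; for example for Thompson's group `F`, as all the maps which occur in it are
given by invertible matrices over `ℤ[1/2]`, and for the groups of Bieri and Strebel with slopes and
translations in `ℤ[1/n]`, `p ∤ n`.
-/

set_option autoImplicit false

namespace Pool.Agent.Results.MP_f7db47_al.DennisTraceOddCharacteristic

universe u v w

/-- `f` is piecewise projective over the subring `B`: there are finitely many invertible matrices
over `B` such that `f` is given by one of the corresponding maps `z ↦ (α z + β) / (γ z + δ)` near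
`-∞` and to the right of each point of the line. -/
def PiecewiseProjectiveOver (B : Subring ℝ) (f : ℝ → ℝ) : Prop :=
  ∃ S : Finset (Matrix (Fin 2) (Fin 2) ℝ),
    (∀ M ∈ S, (∀ i j, M i j ∈ B) ∧ M.det ≠ 0 ∧ (M.det)⁻¹ ∈ B) ∧
    (∃ M ∈ S, ∃ b : ℝ, ∀ z < b, f z * (M 1 0 * z + M 1 1) = M 0 0 * z + M 0 1) ∧
    ∀ a : ℝ, ∃ M ∈ S, ∃ b > a, ∀ z, a < z → z < b →
      f z * (M 1 0 * z + M 1 1) = M 0 0 * z + M 0 1

/-- Let `K` be a field of odd characteristic `p` and `G` a group such that every `g ≠ 1` has a
nontrivial image under some homomorphism from `G` to the increasing homeomorphisms of the line whose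
values are piecewise projective over a subring of `ℝ` which does not contain `1 / p`. Then for every
invertible matrix `A` over `K[G]` there is `γ ∈ G` such that every Hochschild `1`-cocycle `f` on
`K[G]` with values in a vector space takes the same value on the Dennis trace of `A` and on that
of `γ`. -/
theorem result (p : ℕ) [Fact p.Prime] (hp : p ≠ 2) (K : Type u) [Field K] [CharP K p]
    (G : Type v) [Group G]
    (hG : ∀ g : G, g ≠ 1 → ∃ (B : Subring ℝ) (ρ : G →* (ℝ ≃o ℝ)),
      (p : ℝ)⁻¹ ∉ B ∧ (∀ x, PiecewiseProjectiveOver B (ρ x)) ∧ ρ g ≠ 1)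
    (n : ℕ) (A : (Matrix (Fin n) (Fin n) (MonoidAlgebra K G))ˣ) :
    ∃ γ : G, ∀ (M : Type w) [AddCommGroup M] [Module K M] (f : G → G → M),
      (∀ x y z : G, f (x * y) z - f x (y * z) + f (z * x) y = 0) →
      (∑ i, ∑ j, ((A⁻¹).val i j).coeff.sum fun g b =>
          (A.val j i).coeff.sum fun h a => (b * a) • f g h) = f γ⁻¹ γ := by
  have hG' : Pool.Agent.Q91.PP.ResPP p G := hG
  refine H219.WhH.charp_module hp A fun H hH => ?_
  have : Group.FG H := (Group.fg_iff_subgroup_fg H).2 hH
  have h1 := hG'.subgroup H
  have hpos : 0 < p := (Fact.out : p.Prime).pos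
  exact ⟨fun x y hxy => h1.root hpos hxy, fun g hg => h1.div hpos hg⟩

end Pool.Agent.Results.MP_f7db47_al.DennisTraceOddCharacteristic
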