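import Pool.Agent.H106FJ.LF

/-!
# Farrell–Jones type classes: kernels that depend functorially on a locally finite group

`C` is a class of groups with the properties `Closed C` (it contains `ℤ` and is closed under
subgroups, finite products, free products, overgroups of finite index, directed colimits) and
`ExtClosed C` (the extension property) of the groups satisfying the K-theoretic Farrell–Jones
conjecture with coefficients and finite wreath products.

Let `N` be a functor from groups and injective homomorphisms to groups (`GFun`), injective on the
embeddings of finite groups, such that every element of `N(L)`, `L` locally finite, comes from a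
finite subgroup, and with `N(V)` in `C` for `V` finite.  Let `L` be a locally finite group and `G` an
extension of a group of `C` by `N(L)`, such that every `g ∈ G` of infinite order modulo `N(L)` acts
on `N(L)` as an automorphism induced by an automorphism of `L`, up to an inner one.  Then `G` is in `C`.
-/

set_option autoImplicit false

namespace Pool.Agent.Results.MP_f7db47_al.LocallyFiniteFunctors

open Pool.Agent.Y462.SS Pool.Agent.Q152.WP Pool.Agent.H106FJ

/-- Extensions with kernel the value of a functor at a locally finite group. -/
def Kernels (C : ∀ (G : Type) [Group G], Prop) : Prop :=
  ∀ (N : GFun), (∀ (V : Type) [Group V] [Finite V], C (N.obj V)) →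
    ∀ (L : Type) [Group L], LocFin L → ∀ (G Q : Type) [Group G] [Group Q] (f : G →* Q),
      Function.Surjective f → C Q → ∀ ι : N.obj L →* G, Function.Injective ι → ι.range = f.ker →
      (∀ g : G, ¬ IsOfFinOrder (f g) → ∃ (n : N.obj L) (σ : MulAut L),
        ∀ x, g * ι x * g⁻¹ = ι (n * N.map σ.toMonoidHom σ.injective x * n⁻¹)) → C G

theorem result (C : ∀ (G : Type) [Group G], Prop) (hC : Closed C) (hE : ExtClosed C) :
    Kernels C :=
  fun N hfin _ _ hL _ _ _ _ f hf hQ ι hι hker h => N.kernel_mem hC hE hfin hL f hf hQ ι hι hker h

end Pool.Agent.Results.MP_f7db47_al.LocallyFiniteFunctors
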