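import Pool.Agent.H106FJ.Alg

/-!
# Farrell–Jones type classes: kernels that are groups of units of locally simple algebras

`C` is a class of groups with the properties `Closed C` (it contains `ℤ` and is closed under
subgroups, finite products, free products, overgroups of finite index, directed colimits) and
`ExtClosed C` (the extension property) of the groups satisfying the K-theoretic Farrell–Jones
conjecture with coefficients and finite wreath products.  Let `k` be a field such that all the groups
`GL_m(k)` are in `C` (for example a number field or the rational function field over a finite field).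

Let `R` be an algebra over `k`, `N` a group of units of `R`, and `G` an extension of a group of `C` by
`N`, such that every `g ∈ G` of infinite order modulo `N` acts on `N` as an automorphism of the algebra
`R`.  If every finite subset of `R` lies in a finite dimensional simple subalgebra, `G` is in `C`.
-/

set_option autoImplicit false

namespace Pool.Agent.Results.MP_f7db47_al.LocallySimpleAlgebras

open Pool.Agent.Y462.SS Pool.Agent.Q152.WP Pool.Agent.H106FJ

/-- Extensions with kernel a group of units of a locally simple algebra. -/
def SimpleCase (C : ∀ (G : Type) [Group G], Prop) : Prop :=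
  ∀ (k R : Type) [Field k] [Ring R] [Algebra k R], (∀ m : ℕ, C (Matrix (Fin m) (Fin m) k)ˣ) →
    LocSimple k R → ∀ (G Q : Type) [Group G] [Group Q] (f : G →* Q), Function.Surjective f → C Q →
      ∀ ι : f.ker →* Rˣ, Function.Injective ι →
        (∀ g : G, ¬ IsOfFinOrder (f g) → ∃ σ : R ≃ₐ[k] R,
          ∀ x : f.ker, (ι (MulAut.conjNormal g x) : R) = σ (ι x)) → C G

theorem result (C : ∀ (G : Type) [Group G], Prop) (hC : Closed C) (hE : ExtClosed C) :
    SimpleCase C := by
  intro k R _ _ _ hk hR G Q _ _ f hf hQ ι hι h
  refine alg_kernel hC hE hk hR.fd f hf hQ ι hι ?_
  intro g hg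
  obtain ⟨σ, hσ⟩ := h g hg
  exact ⟨σ, hR.matched σ, hσ⟩

end Pool.Agent.Results.MP_f7db47_al.LocallySimpleAlgebras
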